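import Pool.Agent.K7.H69.LC.Stm

/-! Project LC (MP_d4a4cd_co), jobs LUCK and ONE. -/

set_option autoImplicit false

namespace Pool.Agent.K7.H20.LC

open Pool.Agent.K7.H69.LC List

lemma lead_nil : lead [] = 0 := rfl

lemma lead_true (s : List Bool) : lead (true :: s) = lead s + 1 := by
  simp [lead]

lemma lead_false (s : List Bool) : lead (false :: s) = 0 := by
  simp [lead]

lemma lead_rep (a : ℕ) (s : List Bool) : lead (replicate a true ++ s) = a + lead s := by
  induction a with
  | zero => simp
  | succ a ih => rw [replicate_succ, cons_append, lead_true, ih]; omega

lemma lead_le (c : List Bool) : lead c ≤ c.length := by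
  induction c with
  | nil => simp [lead_nil]
  | cons x c ih =>
    cases x
    · rw [lead_false]; omega
    · rw [lead_true, length_cons]; omega

lemma take_of_le_lead (c : List Bool) : ∀ g, g ≤ lead c → c.take g = replicate g true := by
  induction c with
  | nil => intro g hg; rw [lead_nil] at hg; obtain rfl : g = 0 := by omega
           rfl
  | cons x c ih =>
    intro g hg
    cases x
    · rw [lead_false] at hg
      obtain rfl : g = 0 := by omega
      rfl
    · cases g with
      | zero => rfl
      | succ g =>
        rw [lead_true] at hg
        rw [take_succ_cons, replicate_succ, ih g (by omega)]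

lemma all_iff (c : List Bool) : ∀ g, g ≤ c.length → ((c.take g).all id = true ↔ g ≤ lead c) := by
  induction c with
  | nil => intro g hg; simp at hg; subst hg; simp
  | cons x c ih =>
    intro g hg
    cases g with
    | zero => simp
    | succ g =>
      rw [take_succ_cons]
      cases x
      · rw [lead_false]; simp
      · rw [lead_true]
        have := ih g (by simpa using hg)
        simp only [all_cons, id, Bool.true_and]
        rw [this]
        omega

lemma lead_ins (c : List Bool) (g : ℕ) (hg : g ≤ lead c) : lead (ins c g) = g + 1 := by
  have h1 : (c.take g).all id = true := (all_iff c g (hg.trans (lead_le c))).2 hg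
  unfold ins
  rw [if_pos h1, take_of_le_lead c g hg, lead_rep, lead_true, lead_false]

theorem luck : StLuck := by
  intro m
  induction m with
  | zero => intro c; rfl
  | succ m ih =>
    intro c
    show (∑ g ∈ Finset.range (c.length + 1), if (c.take g).all id then W m 0 (ins c g) else 0) =
      ∑ b ∈ Finset.range (lead c + 1), L m (b + 1)
    have hsub : Finset.range (lead c + 1) ⊆ Finset.range (c.length + 1) := by
      apply Finset.range_subset_range.2
      have := lead_le c
      omega
    rw [← Finset.sum_subset hsub]
    · apply Finset.sum_congr rfl
      intro g hg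
      rw [Finset.mem_range] at hg
      have h1 : (c.take g).all id = true :=
        (all_iff c g (by have := lead_le c; omega)).2 (by omega)
      rw [if_pos h1, ih, lead_ins c g (by omega)]
    · intro g hg hg'
      rw [Finset.mem_range] at hg hg'
      have h1 : ¬ (c.take g).all id = true := by
        rw [all_iff c g (by omega)]
        omega
      rw [if_neg h1]

/-- the code with first run `a`, second run `b` and rest `r` -/
def cd (a b : ℕ) (r : List Bool) : List Bool :=
  replicate a true ++ false :: (replicate b true ++ r)

lemma cd_length (a b : ℕ) (r : List Bool) : (cd a b r).length = (a + 1) + (b + r.length) := by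
  unfold cd
  simp
  omega

lemma fix_rep (a : ℕ) (s : List Bool) : fix (replicate a true ++ s) = replicate a true ++ fix s := by
  induction a with
  | zero => simp
  | succ a ih => rw [replicate_succ, cons_append, cons_append]; simp only [fix]; rw [ih]

lemma lead_cd (a b : ℕ) (r : List Bool) : lead (cd a b r) = a := by
  unfold cd
  rw [lead_rep, lead_false, add_zero]

lemma ins_lucky (a b g : ℕ) (r : List Bool) (hg : g ≤ a) :
    ins (cd a b r) g = cd (g + 1) (a - g) (false :: (replicate b true ++ r)) := by
  have h1 : ((cd a b r).take g).all id = true :=
    (all_iff _ g (by rw [cd_length]; omega)).2 (by rw [lead_cd]; exact hg)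
  unfold ins
  rw [if_pos h1, take_of_le_lead _ g (by rw [lead_cd]; exact hg)]
  have h2 : (cd a b r).drop g = replicate (a - g) true ++ false :: (replicate b true ++ r) := by
    unfold cd
    rw [drop_append_of_le_length (by rw [length_replicate]; exact hg), drop_replicate]
  rw [h2]
  unfold cd
  rw [replicate_succ', append_assoc]
  rfl

lemma lead_take (j b : ℕ) (r s : List Bool) (hr : r.head? ≠ some true) :
    lead ((replicate b true ++ r).take j ++ false :: s) = min j b := by
  rcases le_total j b with hj | hj
  · rw [take_append_of_le_length (by rw [length_replicate]; exact hj), take_replicate,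
      min_eq_left hj, lead_rep, lead_false, add_zero]
  · obtain ⟨i, rfl⟩ := Nat.exists_eq_add_of_le hj
    rw [take_append, length_replicate, take_of_length_le (by rw [length_replicate]; exact hj),
      append_assoc, lead_rep, min_eq_right hj, Nat.add_sub_cancel_left]
    suffices h : lead (r.take i ++ false :: s) = 0 by omega
    cases r with
    | nil => simp [lead_false]
    | cons x r =>
      cases x
      · cases i with
        | zero => simp [lead_false]
        | succ i => simp [lead_false]
      · exact absurd rfl hr

lemma lead_ins_unlucky (a b j : ℕ) (r : List Bool) (hr : r.head? ≠ some true)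
    (hj : j ≤ b + r.length) : ¬ ((cd a b r).take (a + 1 + j)).all id = true ∧
      lead (ins (cd a b r) (a + 1 + j)) = a + 1 + min j b := by
  have h1 : ¬ ((cd a b r).take (a + 1 + j)).all id = true := by
    rw [all_iff _ _ (by rw [cd_length]; omega), lead_cd]
    omega
  refine ⟨h1, ?_⟩
  unfold ins
  rw [if_neg h1]
  have h2 : (cd a b r).take (a + 1 + j) = replicate a true ++ false ::
      (replicate b true ++ r).take j := by
    unfold cd
    rw [take_append, length_replicate, take_of_length_le (by rw [length_replicate]; omega)]
    congr 1
    rw [show a + 1 + j - a = j + 1 by omega, take_succ_cons]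
  rw [h2, fix_rep]
  simp only [fix]
  rw [append_assoc, lead_rep, cons_append, lead_true, lead_take _ _ _ _ hr]
  omega

lemma W_cd : ∀ (m a b : ℕ) (r : List Bool), r.head? ≠ some true →
    W m 1 (cd a b r) = G m a b ((a + 1) + (b + r.length)) := by
  intro m
  induction m with
  | zero => intro a b r _; rfl
  | succ m ih =>
    intro a b r hr
    show (∑ g ∈ Finset.range ((cd a b r).length + 1), if ((cd a b r).take g).all id then
      W m 1 (ins (cd a b r) g) else W m 0 (ins (cd a b r) g)) =
      (∑ g ∈ Finset.range (a + 1), G m (g + 1) (a - g) ((a + 1) + (b + r.length) + 2)) +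
      (∑ c ∈ Finset.range b, L m (a + 1 + c)) +
        ((a + 1) + (b + r.length) - a - b) * L m (a + b + 1)
    rw [cd_length, add_assoc (a + 1), Finset.sum_range_add, add_assoc (∑ g ∈ _, _)]
    congr 1
    · apply Finset.sum_congr rfl
      intro g hg
      rw [Finset.mem_range] at hg
      have h1 : ((cd a b r).take g).all id = true :=
        (all_iff _ g (by rw [cd_length]; omega)).2 (by rw [lead_cd]; omega)
      rw [if_pos h1, ins_lucky a b g r (by omega), ih _ _ _ (by simp)]
      congr 1
      simp
      omega
    · have h2 : ∀ j ∈ Finset.range (b + r.length + 1),
          (if ((cd a b r).take (a + 1 + j)).all id then W m 1 (ins (cd a b r) (a + 1 + j)) else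
            W m 0 (ins (cd a b r) (a + 1 + j))) = L m (a + 1 + min j b) := by
        intro j hj
        rw [Finset.mem_range] at hj
        obtain ⟨h3, h4⟩ := lead_ins_unlucky a b j r hr (by omega)
        rw [if_neg h3, luck, h4]
      rw [Finset.sum_congr rfl h2, add_assoc b, Finset.sum_range_add]
      congr 1
      · apply Finset.sum_congr rfl
        intro j hj
        rw [Finset.mem_range] at hj
        rw [min_eq_left (by omega)]
      · rw [Finset.sum_congr rfl (fun j _ => by
          rw [min_eq_right (by omega : b ≤ b + j)] : ∀ j ∈ Finset.range (r.length + 1),
            L m (a + 1 + min (b + j) b) = L m (a + 1 + b)), Finset.sum_const, Finset.card_range,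
          smul_eq_mul, show a + 1 + b = a + b + 1 by omega]
        congr 1
        omega

theorem one : StOne := by
  intro m
  show (∑ g ∈ Finset.range (([] : List Bool).length + 1), if (([] : List Bool).take g).all id then
      W m 1 (ins [] g) else W m 0 (ins [] g)) = G m 1 0 2
  have h := W_cd m 1 0 [] (by simp)
  simpa [cd, ins] using h

/-- the form with `StLuck` as a hypothesis -/
theorem one' (_ : StLuck) : StOne := one

end Pool.Agent.K7.H20.LC
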